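import Pool.Agent.MWGR.StmtsF

/-!
# Squad MWGR, row JDM (helper21): the edge `Dm m` is join prime

The blocks follow the row JA0 of helper39.
-/

set_option autoImplicit false

namespace Pool.Agent.MWGR.H21

open Pool.Agent.Helper14_MV Pool.Agent.Helper2_MV Pool.Agent.MVO Pool.Agent.MWL Pool.Agent.MWS
  Pool.Agent.MWH Pool.Agent.MWGR

/-- the blocks of the left word -/
def j0 (n m : ℕ) : ℕ → List ℕ
  | 0 => X (n + m) ++ 1 :: X n
  | 1 => [1]
  | _ => []

/-- the blocks of the right word -/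
def j1 (n m : ℕ) : ℕ → List ℕ
  | 0 => X n ++ 1 :: X (n + m)
  | 1 => [1]
  | _ => []

theorem asm1 (B : ℕ → List ℕ) : asm 1 B = B 0 ++ 2 :: B 1 := rfl

theorem deg1 (a : ℕ → ℕ) : deg 1 a = a 0 + a 1 := by
  unfold deg
  rw [Finset.sum_range_succ, Finset.sum_range_succ, Finset.sum_range_zero]
  omega

theorem let0 (s t : ℕ) : ∀ c ∈ X s ++ 1 :: X t, c = 0 ∨ c = 1 := by
  intro c hc
  rcases List.mem_append.1 hc with h | h
  · exact Or.inl (List.eq_of_mem_replicate h)
  · rcases List.mem_cons.1 h with h | h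
    · exact Or.inr h
    · exact Or.inl (List.eq_of_mem_replicate h)

theorem c0 (s t : ℕ) : (X s ++ 1 :: X t).count 0 = s + t := by
  rw [List.count_append, List.count_cons_of_ne (by decide), List.count_replicate_self,
    List.count_replicate_self]

theorem c1 (s t : ℕ) : (X s ++ 1 :: X t).count 1 = 1 := by
  rw [List.count_append, List.count_cons_self, List.count_eq_zero.2, List.count_eq_zero.2]
  · intro h
    exact absurd (List.eq_of_mem_replicate h) (by decide)
  · intro h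
    exact absurd (List.eq_of_mem_replicate h) (by decide)

theorem tw (i : ℕ) (t : List ℕ) :
    ((X i ++ 1 :: t).takeWhile (fun c => decide (c = 0))).length = i := by
  induction i with
  | zero => simp
  | succ i ih =>
    have h : X (i + 1) ++ 1 :: t = 0 :: (X i ++ 1 :: t) := rfl
    rw [h, List.takeWhile_cons_of_pos (by decide), List.length_cons, ih]

theorem j0_let (n m : ℕ) : ∀ j ≤ 1, ∀ c ∈ j0 n m j, c = 0 ∨ c = 1 := by
  intro j hj c hc
  have h3 : j = 0 ∨ j = 1 := by omega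
  rcases h3 with rfl | rfl
  · exact let0 _ _ c hc
  · simp [j0] at hc
    omega

theorem j1_let (n m : ℕ) : ∀ j ≤ 1, ∀ c ∈ j1 n m j, c = 0 ∨ c = 1 := by
  intro j hj c hc
  have h3 : j = 0 ∨ j = 1 := by omega
  rcases h3 with rfl | rfl
  · exact let0 _ _ c hc
  · simp [j1] at hc
    omega

theorem ns1 {c : ℕ} (h : c = 0 ∨ c = 1) : NS 1 c := by
  unfold NS
  omega

theorem j0_ok {n : ℕ} (hn : 1 ≤ n) (m : ℕ) : OkB 1 (j0 n m) := by
  refine ⟨fun j hj c hc => ns1 (j0_let n m j hj c hc), fun j hj c hc => ?_⟩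
  rw [deg1]
  rcases j0_let n m j hj c hc with rfl | rfl
  · show 2 ≤ (X (n + m) ++ 1 :: X n).count 0 + ([1] : List ℕ).count 0
    rw [c0]
    omega
  · show 2 ≤ (X (n + m) ++ 1 :: X n).count 1 + ([1] : List ℕ).count 1
    rw [c1]
    decide

theorem j1_ok {n : ℕ} (hn : 1 ≤ n) (m : ℕ) : OkB 1 (j1 n m) := by
  refine ⟨fun j hj c hc => ns1 (j1_let n m j hj c hc), fun j hj c hc => ?_⟩
  rw [deg1]
  rcases j1_let n m j hj c hc with rfl | rfl
  · show 2 ≤ (X n ++ 1 :: X (n + m)).count 0 + ([1] : List ℕ).count 0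
    rw [c0]
    omega
  · show 2 ≤ (X n ++ 1 :: X (n + m)).count 1 + ([1] : List ℕ).count 1
    rw [c1]
    decide

/-- the invariant set -/
def A0 (n m M : ℕ) (B : ℕ → List ℕ) : Prop :=
  ∃ i j r, 2 ≤ i + j ∧ 1 ≤ r ∧ B 0 = X i ++ 1 :: X j ∧ B 1 = Y r ∧ i ≡ n + m [MOD M]

/-- row JDM -/
theorem jdm (hJ : JpigStmt) (hB : BgbStmt) (hM : MnbStmt) (hW : StwStmt) (hF : FrmStmt)
    (hE : EalStmt) (hD : DalStmt) (hS : DsgStmt) (hN : NtdStmt) (hA : ArdStmt) : JdmStmt := by
  intro n β hβ m p e hp hdv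
  have hn : 1 ≤ n := hβ.pos
  have hbas := (hB n β hβ).1
  by_cases hm : m = 0
  · subst hm
    intro ρ σ _ _ _ _ _
    exact Or.inl (RR.refl _)
  by_cases hall : ∀ θ : FIC, β ≤ θ → NC2 θ → Dm n m (RR θ)
  · intro ρ σ h1 _ h3 _ _
    exact Or.inl (hall ρ h1 h3)
  push Not at hall
  obtain ⟨θ0, hθ0, -, hn0⟩ := hall
  obtain ⟨M, hMm, hMd⟩ := hA n m p e hn hm hp hdv
  -- the crossing group
  have grp : ∀ θ : FIC, β ≤ θ → ¬ Dm n m (RR θ) → M ∣ n ∧ (∀ d, Dm n d (RR θ) → M ∣ d) ∧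
      ¬ Dm n 1 (RR θ) := by
    intro θ hθ hnm
    obtain ⟨g, hg1, hgn, hg⟩ := hS n θ ((hM n β θ hθ).1 hβ)
    have h1 : ¬ g ∣ m := fun h => hnm ((hg m).2 h)
    have h2 := hMd g hgn h1
    refine ⟨h2.trans hgn, fun d hd => h2.trans ((hg d).1 hd), fun h => h1 ?_⟩
    exact ((hg 1).1 h).trans (one_dvd m)
  have hMn : M ∣ n := (grp θ0 hθ0 hn0).1
  have e1 : asm 1 (j0 n m) = (Ed.dm m).l n := by
    rw [asm1]
    simp [j0, Ed.l]
  have e2 : asm 1 (j1 n m) = (Ed.dm m).r n := by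
    rw [asm1]
    simp [j1, Ed.r]
  have key : JPp β (asm 1 (j0 n m), asm 1 (j1 n m)) := by
    refine hJ β hbas.cap 1 (j0 n m) (j1 n m) (A0 n m M) (j0_ok hn m) (j1_ok hn m)
      ⟨n + m, n, 1, by omega, le_refl _, rfl, rfl, Nat.ModEq.refl _⟩ ?_ ?_ ?_
    · rintro ⟨i, j, r, _, _, h, _, hi⟩
      have h1 := congrArg (fun l => (l.takeWhile (fun c => decide (c = 0))).length) h
      simp only [j1] at h1
      rw [tw, tw] at h1
      apply hMm
      rw [← h1] at hi
      have h2 := (Nat.modEq_iff_dvd' (by omega : n ≤ n + m)).1 hi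
      rwa [Nat.add_sub_cancel_left] at h2
    · rintro B B' h ⟨i, j, r, h1, h2, h3, h4, h5⟩
      exact ⟨i, j, r, h1, h2, by rw [← h 0 (by omega), h3], by rw [← h 1 (by omega), h4], h5⟩
    · intro θ hθ hnc hne B B' hOB hOB' _ hS' hr hAB
      obtain ⟨i, j, r, hij, hr1, hB0, hB1, hi⟩ := hAB
      have hGθ : BG n (RR θ) := (hM n β θ hθ).1 hβ
      have hnal : ¬ Dm n m (RR θ) := by
        intro h
        apply hne
        rw [e1, e2]
        exact h
      obtain ⟨-, hMθ, hn1⟩ := grp θ hθ hnal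
      have hnE : ¬ Has n (FC.ofFIC θ) Bit.E := fun h => hn1 (hE n θ hGθ h).2.2.2
      have hnD : ¬ Has n (FC.ofFIC θ) (Bit.D 0) := fun h => hn1 (hD n θ hGθ h).2.2.2
      have hst := hW n β θ hbas hθ hnc hnD hnE 1 B B' hOB hOB' hr
      have h1m : (1 : ℕ) ∈ B 0 := by rw [hB0]; simp
      have h0m : (0 : ℕ) ∈ B 0 := by
        rw [hB0, ← List.count_pos_iff, c0]
        omega
      obtain ⟨d1, st1⟩ := hst 1 (ns1 (Or.inr rfl)) ⟨0, by omega, h1m⟩
      obtain ⟨d0, st0⟩ := hst 0 (ns1 (Or.inl rfl)) ⟨0, by omega, h0m⟩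
      rw [deg1] at d1 d0
      -- the types of `B`
      have t10 : ty B 1 0 = 1 := by
        show (B 0).count 1 = 1
        rw [hB0, c1]
      have t01 : ty B 0 1 = 0 := by
        show (B 1).count 0 = 0
        rw [hB1, List.count_eq_zero]
        intro h
        exact absurd (List.eq_of_mem_replicate h) (by decide)
      -- the types of `B'`
      have u10 : ty B' 1 0 = 1 := ((st1 0 (by omega)).1 (fun p hp => absurd hp (by omega))).1.1 t10
      have v1 : ty B' 0 1 = 0 := ((st0 1 (le_refl _)).2.1 (fun q h1 h2 => absurd h1 (by omega))).1.1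
        t01
      -- the blocks of `B'`
      have hlet : ∀ j ≤ 1, ∀ c ∈ B' j, c = 0 ∨ c = 1 := by
        intro j hj c hc
        obtain ⟨j', hj', hc'⟩ := hS' c ⟨j, hj, hc⟩
        exact j0_let n m j' hj' c hc'
      obtain ⟨s', t', hB0', hst'⟩ := (hF.1 (B' 0) (hlet 0 (by omega))).1 u10
      have hB1' := (hF.1 (B' 1) (hlet 1 (by omega))).2.2 v1
      have w1 : (B' 0).count 0 = ty B' 0 0 := rfl
      have w3 : (B' 1).count 1 = ty B' 1 1 := rfl
      have hdm : Dm n (i + (n - 1) * s') (RR θ) := by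
        refine hN n θ hGθ i j s' t' r ((B' 1).count 1) hr1 (by omega) ?_
        rw [asm1, asm1, hB0, hB1, hB0', hB1'] at hr
        have f1 : ∀ a b c : ℕ, (X a ++ 1 :: X b) ++ 2 :: Y c = X a ++ 1 :: (X b ++ 2 :: Y c) := by
          intro a b c
          simp
        rw [f1, f1] at hr
        exact hr
      have hdd : M ∣ i + (n - 1) * s' := hMθ _ hdm
      have hmod : i ≡ s' [MOD M] := by
        have g1 : s' + (i + (n - 1) * s') = i + n * s' := by
          obtain ⟨q, rfl⟩ : ∃ q, n = q + 1 := ⟨n - 1, by omega⟩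
          rw [Nat.add_sub_cancel]
          ring
        have g2 : s' + (i + (n - 1) * s') ≡ s' + 0 [MOD M] :=
          Nat.ModEq.add_left s' ((Nat.modEq_zero_iff_dvd).2 hdd)
        have g3 : i + n * s' ≡ i + 0 [MOD M] :=
          Nat.ModEq.add_left i ((Nat.modEq_zero_iff_dvd).2 (hMn.mul_right s'))
        rw [g1] at g2
        exact g3.symm.trans g2
      exact ⟨s', t', (B' 1).count 1, by omega, by omega, hB0', hB1', hmod.symm.trans hi⟩
  rw [e1, e2] at key
  exact key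

end Pool.Agent.MWGR.H21
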